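import Pool.Agent.H72.GP.Targets
import Pool.Agent.H25.PSV.GID

/-!
Row GID of the board gpo_modules: the values of the forms are Taylor coefficients.
-/

set_option autoImplicit false

open Polynomial Finset
open Pool.Agent.H72.GP
open Pool.Agent.H85.PS (II MM Vec Sup Deg Jf Typ Maj Tay)

namespace Pool.Agent.H32.GPO

theorem pf_GID (hTAR : T_TAR) : T_GID := by
  intro s D F z0 L A hF hT i
  have h2 : iteratedDeriv i (RR F D A) z0 / (i.factorial : ℂ) =
      PowerSeries.coeff i (Tay (z0 : ℂ) (RR F D A)) := by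
    simp only [Tay, PowerSeries.coeff_mk]
  rw [h2, hTAR s D F z0 L A hF hT]
  have h3 : ∀ e ∈ II s D,
      PowerSeries.map (algebraMap ℚ ℂ) ((taylor z0 (A e) : ℚ[X]) : PowerSeries ℚ) *
      ∏ k, (PowerSeries.C (F k z0) +
        PowerSeries.map (algebraMap ℚ ℂ) (L k)) ^ e k =
      ∑ f ∈ II s D, PowerSeries.C (∏ k, F k z0 ^ f k) *
        PowerSeries.map (algebraMap ℚ ℂ) (((taylor z0 (A e) : ℚ[X]) : PowerSeries ℚ) *
          (∏ k, ((e k).choose (f k) : PowerSeries ℚ)) * ∏ k, L k ^ (e k - f k)) := by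
    intro e he
    rw [Pool.Agent.H25.PSV.expand_prod _ _ e he, Finset.mul_sum]
    refine Finset.sum_congr rfl fun f _ => ?_
    simp only [map_mul, map_prod, map_pow, map_natCast]
    ring
  rw [Finset.sum_congr rfl h3, Finset.sum_comm, map_sum]
  refine Finset.sum_congr rfl fun f _ => ?_
  rw [← Finset.mul_sum, PowerSeries.coeff_C_mul, ← map_sum, PowerSeries.coeff_map, mul_comm]
  rfl

end Pool.Agent.H32.GPO
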