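import Pool.Agent.H72.GP.Targets

/-!
Row RRB of the board gpo_modules: the auxiliary function near zero.
-/

set_option autoImplicit false

open Polynomial Finset Filter Topology
open Pool.Agent.H72.GP
open Pool.Agent.H85.PS (II MM Vec Sup Deg Jf Typ Maj Tay)

namespace Pool.Agent.H32.GPO

/-- the number `x + i y` or its conjugate, small -/
theorem beta_small {B : ℕ} (hB : 1 ≤ B) {x y : ℤ} (hx : |x| ≤ B) (hy : |y| ≤ B) {z : ℂ}
    (hz : z ∈ Metric.ball (0 : ℂ) (1 / (4 * B))) {ε : ℂ} (hε : ‖ε‖ = 1) :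
    ‖(((x : ℚ) : ℂ) + ε * (((y : ℚ) : ℂ))) * z‖ ≤ 1 / 2 := by
  have hB1 : (1 : ℝ) ≤ B := by exact_mod_cast hB
  have hB0 : (0 : ℝ) < B := by linarith
  rw [mem_ball_zero_iff] at hz
  have h1 : ‖(((x : ℚ) : ℂ))‖ ≤ B := by
    rw [Rat.cast_intCast, Complex.norm_intCast]
    exact_mod_cast hx
  have h2 : ‖(((y : ℚ) : ℂ))‖ ≤ B := by
    rw [Rat.cast_intCast, Complex.norm_intCast]
    exact_mod_cast hy
  have h3 : ‖((x : ℚ) : ℂ) + ε * (((y : ℚ) : ℂ))‖ ≤ 2 * B := by
    refine (norm_add_le _ _).trans ?_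
    rw [norm_mul, hε, one_mul]
    linarith
  rw [norm_mul]
  calc _ ≤ (2 * (B : ℝ)) * (1 / (4 * B)) := by gcongr
    _ = 1 / 2 := by field_simp; norm_num

theorem slit {w : ℂ} (h : ‖w‖ ≤ 1 / 2) : 1 + w ∈ Complex.slitPlane := by
  rw [Complex.mem_slitPlane_iff]
  left
  have h1 := Complex.abs_re_le_norm w
  rw [Complex.add_re, Complex.one_re]
  have h3 := neg_abs_le w.re
  linarith

theorem nlog {w : ℂ} (h : ‖w‖ ≤ 1 / 2) : ‖Complex.log (1 + w)‖ ≤ 1 := by
  refine (Complex.norm_log_one_add_half_le_self h).trans ?_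
  linarith

theorem plus_small {B : ℕ} (hB : 1 ≤ B) {x y : ℤ} (hx : |x| ≤ B) (hy : |y| ≤ B) {z : ℂ}
    (hz : z ∈ Metric.ball (0 : ℂ) (1 / (4 * B))) :
    ‖(((x : ℚ) : ℂ) + (((y : ℚ) : ℂ)) * Complex.I) * z‖ ≤ 1 / 2 := by
  have h := beta_small hB hx hy hz (ε := Complex.I) (by simp)
  rwa [mul_comm Complex.I] at h

theorem minus_small {B : ℕ} (hB : 1 ≤ B) {x y : ℤ} (hx : |x| ≤ B) (hy : |y| ≤ B) {z : ℂ}
    (hz : z ∈ Metric.ball (0 : ℂ) (1 / (4 * B))) :
    ‖(((x : ℚ) : ℂ) - (((y : ℚ) : ℂ)) * Complex.I) * z‖ ≤ 1 / 2 := by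
  have h := beta_small hB hx hy hz (ε := -Complex.I) (by simp)
  rwa [neg_mul, mul_comm Complex.I, ← sub_eq_add_neg] at h

theorem FF_diff {B : ℕ} (hB : 1 ≤ B) (κ : Bool) {x y : ℤ} (hx : |x| ≤ B) (hy : |y| ≤ B) {z : ℂ}
    (hz : z ∈ Metric.ball (0 : ℂ) (1 / (4 * B))) :
    DifferentiableAt ℂ (FF κ (x : ℚ) (y : ℚ)) z := by
  have h1 : DifferentiableAt ℂ (fun z : ℂ =>
      Complex.log (1 + (((x : ℚ) : ℂ) + (((y : ℚ) : ℂ)) * Complex.I) * z)) z :=
    DifferentiableAt.clog (by fun_prop) (slit (plus_small hB hx hy hz))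
  have h2 : DifferentiableAt ℂ (fun z : ℂ =>
      Complex.log (1 + (((x : ℚ) : ℂ) - (((y : ℚ) : ℂ)) * Complex.I) * z)) z :=
    DifferentiableAt.clog (by fun_prop) (slit (minus_small hB hx hy hz))
  cases κ
  · exact (h1.add h2).div_const 2
  · exact (h1.sub h2).div_const (2 * Complex.I)

theorem FF_norm {B : ℕ} (hB : 1 ≤ B) (κ : Bool) {x y : ℤ} (hx : |x| ≤ B) (hy : |y| ≤ B) {z : ℂ}
    (hz : z ∈ Metric.ball (0 : ℂ) (1 / (4 * B))) : ‖FF κ (x : ℚ) (y : ℚ) z‖ ≤ 1 := by
  have h1 := nlog (plus_small hB hx hy hz)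
  have h2 := nlog (minus_small hB hx hy hz)
  cases κ
  · simp only [FF, Bool.false_eq_true, if_false]
    rw [norm_div]
    have h3 : ‖(2 : ℂ)‖ = 2 := by simp
    rw [h3, div_le_one (by norm_num)]
    refine (norm_add_le _ _).trans ?_
    linarith
  · simp only [FF, if_true]
    rw [norm_div]
    have h3 : ‖(2 * Complex.I : ℂ)‖ = 2 := by simp
    rw [h3, div_le_one (by norm_num)]
    refine (norm_sub_le _ _).trans ?_
    linarith

theorem pf_RRB : T_RRB := by
  intro s D m B κ x y A a hB hxy hA ha hco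
  have hB1 : (1 : ℝ) ≤ B := by exact_mod_cast hB
  have hB0 : (0 : ℝ) < B := by linarith
  constructor
  · intro z hz
    refine DifferentiableAt.differentiableWithinAt ?_
    unfold RR
    refine DifferentiableAt.fun_sum fun e _ => ?_
    refine DifferentiableAt.mul ?_ ?_
    · exact (Polynomial.differentiable_aeval (A e)).differentiableAt
    · refine DifferentiableAt.fun_finsetProd fun k _ => ?_
      exact DifferentiableAt.pow (FF_diff hB (κ k) (hxy k).1 (hxy k).2 hz) _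
  · intro z hz
    have hz1 : ‖z‖ ≤ 1 := by
      rw [mem_ball_zero_iff] at hz
      refine hz.le.trans ?_
      rw [div_le_one (by positivity)]
      linarith
    unfold RR
    refine (norm_sum_le _ _).trans ?_
    have h1 : ∀ e ∈ II s D, ‖aeval z (A e) * ∏ k, FF (κ k) (x k) (y k) z ^ e k‖ ≤
        (m + 1) * a := by
      intro e _
      rw [norm_mul]
      have h2 : ‖aeval z (A e)‖ ≤ (m + 1) * a := by
        rw [Polynomial.aeval_eq_sum_range' (Nat.lt_succ_of_le (hA e))]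
        refine (norm_sum_le _ _).trans ?_
        have h3 : ∀ j ∈ Finset.range (m + 1), ‖(A e).coeff j • z ^ j‖ ≤ a := by
          intro j _
          rw [Algebra.smul_def, norm_mul, norm_pow]
          have h4 : ‖algebraMap ℚ ℂ ((A e).coeff j)‖ = |(((A e).coeff j : ℚ) : ℝ)| := by
            rw [eq_ratCast, ← Complex.ofReal_ratCast, Complex.norm_real, Real.norm_eq_abs]
          rw [h4]
          calc _ ≤ a * 1 := mul_le_mul (hco e j) (pow_le_one₀ (norm_nonneg z) hz1)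
                (by positivity) ha
            _ = a := mul_one a
        refine (Finset.sum_le_sum h3).trans ?_
        rw [Finset.sum_const, Finset.card_range, nsmul_eq_mul]
        push_cast
        exact le_rfl
      have h5 : ‖∏ k, FF (κ k) (x k) (y k) z ^ e k‖ ≤ 1 := by
        rw [norm_prod]
        refine Finset.prod_le_one (fun k _ => norm_nonneg _) fun k _ => ?_
        rw [norm_pow]
        exact pow_le_one₀ (norm_nonneg _) (FF_norm hB (κ k) (hxy k).1 (hxy k).2 hz)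
      calc _ ≤ ((m + 1) * a) * 1 := mul_le_mul h2 h5 (norm_nonneg _) (by positivity)
        _ = (m + 1) * a := mul_one _
    refine (Finset.sum_le_sum h1).trans ?_
    rw [Finset.sum_const, nsmul_eq_mul]
    unfold MM
    exact le_rfl

end Pool.Agent.H32.GPO
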