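import Pool.Agent.H72.GP.Targets

/-!
Row TYL of the board gpo_modules: the arithmetic type of the power series of the logarithms.
-/

set_option autoImplicit false

open Polynomial Finset
open Pool.Agent.H72.GP
open Pool.Agent.H85.PS (II MM Vec Sup Deg Jf Typ Maj Tay)

namespace Pool.Agent.H32.GPO

theorem gp_int (q : ℤ) (x y : ℚ) (hx : ∃ z : ℤ, (q : ℚ) * x = z) (hy : ∃ z : ℤ, (q : ℚ) * y = z)
    (n : ℕ) : (∃ z : ℤ, (q : ℚ) ^ n * (gp x y n).1 = z) ∧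
      ∃ z : ℤ, (q : ℚ) ^ n * (gp x y n).2 = z := by
  obtain ⟨u, hu⟩ := hx
  obtain ⟨v, hv⟩ := hy
  induction n with
  | zero => exact ⟨⟨1, by simp [gp]⟩, ⟨0, by simp [gp]⟩⟩
  | succ n ih =>
    obtain ⟨⟨a, ha⟩, ⟨b, hb⟩⟩ := ih
    refine ⟨⟨u * a - v * b, ?_⟩, ⟨u * b + v * a, ?_⟩⟩
    · simp only [gp]
      push_cast
      rw [← hu, ← hv, ← ha, ← hb]
      ring
    · simp only [gp]
      push_cast
      rw [← hu, ← hv, ← ha, ← hb]
      ring

theorem pf_TYL : T_TYL := by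
  intro q κ x y hx hy i
  rcases Nat.eq_zero_or_pos i with rfl | hi
  · refine ⟨0, ?_⟩
    unfold lgG
    rw [PowerSeries.coeff_mk]
    simp
  · have hd : i ∣ Nat.lcmUpto i := by
      unfold Nat.lcmUpto
      exact Finset.dvd_lcm (f := id) (Finset.mem_Icc.2 ⟨hi, le_refl i⟩)
    obtain ⟨m, hm⟩ := hd
    have hi0 : (i : ℚ) ≠ 0 := by
      have : i ≠ 0 := by omega
      exact_mod_cast this
    obtain ⟨⟨a, ha⟩, ⟨b, hb⟩⟩ := gp_int q x y hx hy i
    have key : ∀ (w : ℚ) (c : ℤ), (q : ℚ) ^ i * w = c →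
        (q : ℚ) ^ i * ((i * m : ℕ) : ℚ) ^ 1 * ((-1) ^ (i + 1) * w / i) =
          ((c * (-1) ^ (i + 1) * m : ℤ) : ℚ) := by
      intro w c hw
      push_cast
      rw [← hw, pow_one]
      field_simp
    unfold lgG
    rw [PowerSeries.coeff_mk, hm]
    cases κ
    · exact ⟨a * (-1) ^ (i + 1) * m, key _ _ ha⟩
    · exact ⟨b * (-1) ^ (i + 1) * m, key _ _ hb⟩

end Pool.Agent.H32.GPO
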